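import Pool.Agent.Lib.MP_4322ef_CE.Mg.G003
import Pool.Agent.Lib.MP_4322ef_CE.Mg.G004
import Pool.Agent.Lib.MP_4322ef_CE.Mg.G001

section

/-!
# Iterated components: the product of the extreme vectors

Proof: item (5) in the header of file P01 (its equation (*) is `P01_star`).
-/

set_option autoImplicit false

open scoped InnerProductSpace

namespace Pool.Agent.Lib.MP_4322ef_CH

open Pool.Agent.Lib.MP_4322ef_al.SR

variable {g : Type} [NormedAddCommGroup g] [InnerProductSpace ℝ g] {L : RedLie g}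
  [FiniteDimensional ℝ g]

section
variable {J : CStr L} {E : Type} [NormedAddCommGroup E] [InnerProductSpace ℂ E]
  [FiniteDimensional ℂ E]
  {W : Type} [NormedAddCommGroup W] [InnerProductSpace ℂ W] [FiniteDimensional ℂ W]
  {Y : Type} [NormedAddCommGroup Y] [InnerProductSpace ℂ Y] [FiniteDimensional ℂ Y]

section
variable {V : Type} [NormedAddCommGroup V] [InnerProductSpace ℂ V] [FiniteDimensional ℂ V]
  {V' : Type} [NormedAddCommGroup V'] [InnerProductSpace ℂ V'] [FiniteDimensional ℂ V']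
  {Y' : Type} [NormedAddCommGroup Y'] [InnerProductSpace ℂ Y'] [FiniteDimensional ℂ Y']

omit [FiniteDimensional ℝ g] [FiniteDimensional ℂ E] [FiniteDimensional ℂ V]
  [FiniteDimensional ℂ V'] in
/-- the weight of a value of an equivariant bilinear map -/
theorem P02_aw {p : CRep J V} {s : CRep J E} {p' : CRep J V'} {a : V →ₗ[ℂ] E →ₗ[ℂ] V'}
    (C : CSub L) (ha : ∀ Z v x, p'.op Z (a v x) = a (p.op Z v) x + a v (s.op Z x)) {la wx : g}
    {v : V} {x : E} (hv : WV p C.a la v) (hx : WV s C.a wx x) : WV p' C.a (la + wx) (a v x) := by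
  intro H hH
  rw [ha, hv H hH, hx H hH, map_smul, map_smul, LinearMap.smul_apply, ← add_smul, inner_add_left,
    Complex.ofReal_add]

/-- the weight of a value of the adjoint -/
theorem P02_cw {s : CRep J E} {y : CRep J Y} {y' : CRep J Y'} {c : Y' →ₗ[ℂ] E →ₗ[ℂ] Y}
    (C : CSub L) (hc : ∀ Z u x, y.op Z (c u x) = c (y'.op Z u) x + c u (s.op Z x)) {be wx : g}
    {u : Y} {x : E} (hu : WV y C.a be u) (hx : WV s C.a wx x) :
    WV y' C.a (be - wx) (LinearMap.adjoint (c.flip x) u) := by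
  intro H hH
  rw [P01_star s y y' hc H x u, C.a_p H hH, Rep.neg', LinearMap.neg_apply, hx H hH, hu H hH,
    map_smul, map_neg, map_smul, map_neg, map_smulₛₗ, LinearMap.neg_apply, LinearMap.smul_apply,
    Complex.conj_ofReal, ← sub_eq_add_neg, ← sub_smul, inner_sub_left, Complex.ofReal_sub]

theorem P02_bmap {N : ℕ} (e : OrthonormalBasis (Fin N) ℂ E) (a : V →ₗ[ℂ] E →ₗ[ℂ] V')
    (b' : V' →ₗ[ℂ] Y' →ₗ[ℂ] W) (c : Y' →ₗ[ℂ] E →ₗ[ℂ] Y) (v : V) (u : Y) :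
    bmap e a b' c v u = ∑ j, b' (a v (e j)) (LinearMap.adjoint (c.flip (e j)) u) := by
  rw [bmap, LinearMap.sum_apply, LinearMap.sum_apply]
  rfl

theorem P01_ne (C : CSub L) {N : ℕ} {e : OrthonormalBasis (Fin N) ℂ E} {w : Fin N → g}
    {K : Finset (Fin N)} {q : ℝ} {s : CRep J E} (h : Orth C s e w K q) {K' : Finset (Fin N)}
    (hK' : K' ⊆ K) {i₁ : Fin N} (hi₁ : i₁ ∈ K') (p : CRep J V) {p' : CRep J V'} (hp' : Irr p')
    {y : CRep J Y} (hy : Irr y) {y' : CRep J Y'} (hy' : Irr y') {t : CRep J W} (ht : Irr t)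
    {a : V →ₗ[ℂ] E →ₗ[ℂ] V'} {b' : V' →ₗ[ℂ] Y' →ₗ[ℂ] W} {c : Y' →ₗ[ℂ] E →ₗ[ℂ] Y}
    (ha : ∀ Z v x, p'.op Z (a v x) = a (p.op Z v) x + a v (s.op Z x))
    (hb : ∀ Z v u, t.op Z (b' v u) = b' (p'.op Z v) u + b' v (y'.op Z u))
    (hc : ∀ Z u x, y.op Z (c u x) = c (y'.op Z u) x + c u (s.op Z x))
    {H₁ H₂ H₃ H₄ H₅ mu : g} (hH₁ : Reg L C.a H₁) (hH₂ : Reg L C.a H₂) (hH₃ : Reg L C.a H₃)
    (hH₄ : Reg L C.a H₄) (hH₅ : Reg L C.a H₅) {w₁ : W} {v₁ : V} {v₁' : V'} {u₁ : Y} {u₁' : Y'}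
    (hw₁ : HW t C.a H₁ mu w₁) (hv₁ : HW p C.a H₂ (mu - ∑ i ∈ K', w i) v₁)
    (hv₁' : HW p' C.a H₃ (mu - ∑ i ∈ K'.erase i₁, w i) v₁')
    (hu₁ : HW y C.a H₄ (∑ i ∈ K', w i) u₁) (hu₁' : HW y' C.a H₅ (∑ i ∈ K'.erase i₁, w i) u₁')
    (hmin : ∀ j ∈ K', ⟪mu - ∑ i ∈ K', w i, w i₁⟫_ℝ ≤ ⟪mu - ∑ i ∈ K', w i, w j⟫_ℝ)
    (ha0 : a v₁ (e i₁) ≠ 0) (hb0 : b' v₁' u₁' ≠ 0) (hc0 : c u₁' (e i₁) ≠ 0) :
    bmap e a b' c v₁ u₁ ≠ 0 := by
  have hKi : i₁ ∈ K := hK' hi₁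
  set ys : g := ∑ i ∈ K', w i with hys
  have hsum : ∑ i ∈ K'.erase i₁, w i = ys - w i₁ := Finset.sum_erase_eq_sub hi₁
  have hlw : mu - ∑ i ∈ K'.erase i₁, w i = (mu - ys) + w i₁ := by
    rw [hsum]
    abel
  rw [hlw] at hv₁'
  rw [hsum] at hu₁'
  have hip : ∀ j ∈ K', ⟪ys, w j⟫_ℝ = q := by
    intro j hj
    rw [hys, sum_inner, Finset.sum_eq_single j, h.len j (hK' hj)]
    · intro i hi hij
      exact h.orth i (hK' hi) j (hK' hj) hij
    · intro hn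
      exact absurd hj hn
  have hin : ∀ j, j ∉ K' → ⟪ys, w j⟫_ℝ ≤ 0 := by
    intro j hj
    rw [hys, sum_inner]
    refine Finset.sum_nonpos fun i hi => ?_
    by_cases hjK : j ∈ K
    · exact (h.orth i (hK' hi) j hjK fun hij => hj (hij ▸ hi)).le
    · exact h.neg i (hK' hi) j hjK
  have haw : ∀ j, WV p' C.a ((mu - ys) + w j) (a v₁ (e j)) := fun j =>
    P02_aw C ha hv₁.wt (h.wv j)
  have hcw : ∀ j, WV y' C.a (ys - w j) (LinearMap.adjoint (c.flip (e j)) u₁) := fun j =>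
    P02_cw C hc hu₁.wt (h.wv j)
  have hysa : ys ∈ C.a := hu₁.mem
  have hlama : mu - ys ∈ C.a := hv₁.mem
  -- the nonzero terms
  have hterm : ∀ j, b' (a v₁ (e j)) (LinearMap.adjoint (c.flip (e j)) u₁) ≠ 0 →
      j ∈ K' ∧ ⟪mu - ys, w j⟫_ℝ = ⟪mu - ys, w i₁⟫_ℝ := by
    intro j hj
    have h1 : a v₁ (e j) ≠ 0 := by
      intro h0
      apply hj
      rw [h0, map_zero, LinearMap.zero_apply]
    have h2 : LinearMap.adjoint (c.flip (e j)) u₁ ≠ 0 := by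
      intro h0
      apply hj
      rw [h0, map_zero]
    have hn1 := P01_norm p' C hp' hH₃ hv₁'
      (lam := (mu - ys) + w j) ⟨C.a.add_mem hlama (h.mem j), _, h1, haw j⟩
    have hn2 := P01_norm y' C hy' hH₅ hu₁'
      (lam := ys - w j) ⟨C.a.sub_mem hysa (h.mem j), _, h2, hcw j⟩
    have hq := h.pos
    have hli := h.len i₁ hKi
    have hysi := hip i₁ hi₁
    have hjK : j ∈ K' := by
      by_contra hjn
      have h3 := hin j hjn
      have h4 : 0 ≤ ⟪w j, w j⟫_ℝ := real_inner_self_nonneg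
      rw [real_inner_sub_sub_self, real_inner_sub_sub_self] at hn2
      linarith
    refine ⟨hjK, le_antisymm ?_ (hmin j hjK)⟩
    have hlj := h.len j (hK' hjK)
    rw [real_inner_add_add_self, real_inner_add_add_self] at hn1
    linarith
  -- the first term
  obtain ⟨r, hr⟩ := hw_mult p' C hp' hH₃ hv₁' (haw i₁)
  obtain ⟨r', hr'⟩ := hw_mult y' C hy' hH₅ hu₁' (hcw i₁)
  have hr0 : r ≠ 0 := by
    intro h0
    apply ha0
    rw [hr, h0, zero_smul]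
  have hr'0 : r' ≠ 0 := by
    intro h0
    have h1 : WV y C.a (ys - w i₁ + w i₁) (c u₁' (e i₁)) := P02_aw C hc hu₁'.wt (h.wv i₁)
    rw [sub_add_cancel] at h1
    obtain ⟨r'', hr''⟩ := hw_mult y C hy hH₄ hu₁ h1
    have h2 : ⟪LinearMap.adjoint (c.flip (e i₁)) u₁, u₁'⟫_ℂ = r'' * ⟪u₁, u₁⟫_ℂ := by
      rw [LinearMap.adjoint_inner_left, LinearMap.flip_apply, hr'', inner_smul_right]
    rw [hr', h0, zero_smul, inner_zero_left] at h2
    rcases mul_eq_zero.1 h2.symm with h3 | h3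
    · apply hc0
      rw [hr'', h3, zero_smul]
    · exact hu₁.ne (inner_self_eq_zero.1 h3)
  have hT1 : b' (a v₁ (e i₁)) (LinearMap.adjoint (c.flip (e i₁)) u₁) ≠ 0 := by
    rw [hr, hr', map_smul, map_smul, LinearMap.smul_apply, smul_ne_zero_iff, smul_ne_zero_iff]
    exact ⟨hr'0, hr0, hb0⟩
  -- the other nonzero terms
  have hTj : ∀ j, j ≠ i₁ → j ∈ K' → ⟪mu - ys, w j⟫_ℝ = ⟪mu - ys, w i₁⟫_ℝ →
      b' (a v₁ (e j)) (LinearMap.adjoint (c.flip (e j)) u₁) =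
        b' (a v₁ (e i₁)) (LinearMap.adjoint (c.flip (e i₁)) u₁) := by
    intro j hji hjK' hlam
    have hjK := hK' hjK'
    obtain ⟨Z, hZ, hZe, hthe⟩ := P01_root C s h hKi hjK (Ne.symm hji)
    have hroot := h.root i₁ hKi j hjK (Ne.symm hji)
    have hal : w i₁ - w j ∈ C.a := hroot.1
    have hal0 : w i₁ - w j ≠ 0 := hroot.2.1
    have hnal : -(w i₁ - w j) ∈ C.a := C.a.neg_mem hal
    have hnal0 : -(w i₁ - w j) ≠ 0 := neg_ne_zero.2 hal0
    have hZ' := RV_th C hZ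
    have hq := h.pos
    have hli := h.len i₁ hKi
    have hlj := h.len j hjK
    have hij := h.orth i₁ hKi j hjK (Ne.symm hji)
    have hji' := h.orth j hjK i₁ hKi hji
    have hysi := hip i₁ hi₁
    have hysj := hip j hjK'
    have k1 : p.op (L.th Z) v₁ = 0 := by
      refine ext_kill p C hH₂ hv₁ hnal hnal0 hZ' ?_
      rw [real_inner_comm, inner_neg_right, inner_sub_right, hlam, sub_self, neg_zero]
    have k2 : a v₁ (e j) = -p'.op (L.th Z) (a v₁ (e i₁)) := by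
      rw [ha, k1, map_zero, LinearMap.zero_apply, zero_add, hthe, map_neg, neg_neg]
    have k3 : y.op Z u₁ = 0 := by
      refine ext_kill y C hH₄ hu₁ hal hal0 hZ ?_
      rw [real_inner_comm, inner_sub_right, hysi, hysj, sub_self]
    have k4 : LinearMap.adjoint (c.flip (e j)) u₁ =
        -y'.op Z (LinearMap.adjoint (c.flip (e i₁)) u₁) := by
      rw [P01_star s y y' hc Z (e i₁) u₁, k3, map_zero, zero_add, hthe, map_neg, map_neg,
        LinearMap.neg_apply, neg_neg]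
    have k5 : y'.op (L.th Z) (LinearMap.adjoint (c.flip (e i₁)) u₁) = 0 := by
      rw [hr', map_smul, ext_kill y' C hH₅ hu₁' hnal hnal0 hZ' ?_, smul_zero]
      rw [inner_neg_left, inner_sub_left, inner_sub_right, inner_sub_right, real_inner_comm ys,
        real_inner_comm ys, hysi, hysj, hli, hji']
      linarith
    have k6 : s.op Z (e i₁) = 0 := by
      obtain ⟨H₀, hH₀, hw₀⟩ := h.ext i₁ hKi
      refine ext_kill s C hH₀ hw₀ hal hal0 hZ ?_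
      rw [inner_sub_left, hli, hji']
      linarith
    have k7 : ⟪Z, Z⟫_ℝ * q = 1 := by
      have h1 := s.bracket Z (L.th Z) (e i₁)
      rw [k6, map_zero, sub_zero, hthe, map_neg, hZe, br_th_root C hal hZ, Rep.neg',
        LinearMap.neg_apply, s.smul, LinearMap.smul_apply, h.wv i₁ _ hal, smul_smul,
        inner_sub_right, hli, hij, sub_zero, neg_inj, ← Complex.ofReal_mul] at h1
      have h2 : (((⟪Z, Z⟫_ℝ * q : ℝ) : ℂ) - 1) • e i₁ = 0 := by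
        rw [sub_smul, h1, one_smul, sub_self]
      rcases smul_eq_zero.1 h2 with h3 | h3
      · rw [sub_eq_zero] at h3
        exact_mod_cast h3
      · exact absurd h3 (e.orthonormal.ne_zero i₁)
    have k8 : y'.op (L.th Z) (y'.op Z (LinearMap.adjoint (c.flip (e i₁)) u₁)) =
        -LinearMap.adjoint (c.flip (e i₁)) u₁ := by
      have h1 := y'.bracket Z (L.th Z) (LinearMap.adjoint (c.flip (e i₁)) u₁)
      have h2 : ⟪ys - w i₁, w i₁ - w j⟫_ℝ = -q := by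
        rw [inner_sub_left, inner_sub_right, inner_sub_right, hysi, hysj, hli, hij]
        ring
      rw [k5, map_zero, zero_sub, br_th_root C hal hZ, Rep.neg', LinearMap.neg_apply, neg_inj,
        y'.smul, LinearMap.smul_apply, hcw i₁ _ hal, smul_smul, h2, ← Complex.ofReal_mul,
        mul_neg, k7] at h1
      rw [← h1]
      simp
    have k9 : b' (a v₁ (e i₁)) (y'.op Z (LinearMap.adjoint (c.flip (e i₁)) u₁)) = 0 := by
      by_contra hne
      have hmua : mu ∈ C.a := hw₁.mem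
      have hwt := P02_aw C hb (haw i₁) (wt_shift y' C hZ (hcw i₁))
      have he : (mu - ys) + w i₁ + ((w i₁ - w j) + (ys - w i₁)) = mu + (w i₁ - w j) := by abel
      rw [he] at hwt
      have hn := P01_norm t C ht hH₁ hw₁ (lam := mu + (w i₁ - w j))
        ⟨C.a.add_mem hmua hal, _, hne, hwt⟩
      rw [real_inner_add_add_self] at hn
      have h1 : ⟪mu, w i₁ - w j⟫_ℝ = 0 := by
        have h2 : ⟪mu - ys, w i₁ - w j⟫_ℝ = 0 := by
          rw [inner_sub_right, hlam, sub_self]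
        have h3 : ⟪ys, w i₁ - w j⟫_ℝ = 0 := by
          rw [inner_sub_right, hysi, hysj, sub_self]
        rw [inner_sub_left, h3, sub_zero] at h2
        exact h2
      have h4 : 0 < ⟪w i₁ - w j, w i₁ - w j⟫_ℝ := real_inner_self_pos.2 hal0
      linarith
    have k10 := hb (L.th Z) (a v₁ (e i₁)) (y'.op Z (LinearMap.adjoint (c.flip (e i₁)) u₁))
    rw [k9, map_zero, k8, map_neg] at k10
    rw [k2, k4, map_neg, map_neg, LinearMap.neg_apply, neg_neg]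
    exact (eq_of_sub_eq_zero (by rw [sub_eq_add_neg]; exact k10.symm))
  rw [P02_bmap]
  have hall : ∀ j, ∃ m : ℕ, b' (a v₁ (e j)) (LinearMap.adjoint (c.flip (e j)) u₁) =
      (m : ℂ) • b' (a v₁ (e i₁)) (LinearMap.adjoint (c.flip (e i₁)) u₁) := by
    intro j
    by_cases h0 : b' (a v₁ (e j)) (LinearMap.adjoint (c.flip (e j)) u₁) = 0
    · exact ⟨0, by rw [h0, Nat.cast_zero, zero_smul]⟩
    · by_cases hji : j = i₁
      · exact ⟨1, by rw [hji, Nat.cast_one, one_smul]⟩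
      · exact ⟨1, by rw [Nat.cast_one, one_smul]; exact hTj j hji (hterm j h0).1 (hterm j h0).2⟩
  choose m hm using hall
  have hm1 : m i₁ ≠ 0 := by
    intro h0
    apply hT1
    rw [hm i₁, h0, Nat.cast_zero, zero_smul]
  have hsm : ∑ j, b' (a v₁ (e j)) (LinearMap.adjoint (c.flip (e j)) u₁) =
      ((∑ j, m j : ℕ) : ℂ) • b' (a v₁ (e i₁)) (LinearMap.adjoint (c.flip (e i₁)) u₁) := by
    rw [Nat.cast_sum, Finset.sum_smul]
    exact Finset.sum_congr rfl fun j _ => hm j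
  rw [hsm]
  have hpos : ∑ j, m j ≠ 0 := by
    have h1 := Finset.single_le_sum (f := m) (fun j _ => Nat.zero_le _) (Finset.mem_univ i₁)
    omega
  exact smul_ne_zero (Nat.cast_ne_zero.2 hpos) hT1

end

end

end Pool.Agent.Lib.MP_4322ef_CH
end

section

/-!
# Iterated components

See the header of file P01.
-/

set_option autoImplicit false

open scoped InnerProductSpace

namespace Pool.Agent.Lib.MP_4322ef_CH

open Pool.Agent.Lib.MP_4322ef_al.SR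

variable {g : Type} [NormedAddCommGroup g] [InnerProductSpace ℝ g] {L : RedLie g}
  [FiniteDimensional ℝ g]

section
variable {J : CStr L} {E : Type} [NormedAddCommGroup E] [InnerProductSpace ℂ E]
  [FiniteDimensional ℂ E]
  {W : Type} [NormedAddCommGroup W] [InnerProductSpace ℂ W] [FiniteDimensional ℂ W]
  {Y : Type} [NormedAddCommGroup Y] [InnerProductSpace ℂ Y] [FiniteDimensional ℂ Y]

omit [FiniteDimensional ℝ g] [FiniteDimensional ℂ E] [FiniteDimensional ℂ W]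
  [FiniteDimensional ℂ Y] in
theorem P03_Q (C : CSub L) {N : ℕ} {w : Fin N → g} (hw : ∀ i, w i ∈ C.a) {K : Finset (Fin N)}
    {Q : g → Prop} (hQ : ∀ x ∈ C.a, Q x → ∀ i ∈ K, Q (x - w i)) {K' : Finset (Fin N)}
    (hK' : K' ⊆ K) {x : g} (hx : x ∈ C.a) (hQx : Q x) : Q (x - ∑ i ∈ K', w i) := by
  classical
  induction K' using Finset.induction_on with
  | empty =>
    rw [Finset.sum_empty, sub_zero]
    exact hQx
  | insert j K' hj ih =>
    rw [Finset.sum_insert hj, add_comm, ← sub_sub]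
    have h1 : K' ⊆ K := fun i hi => hK' (Finset.mem_insert_of_mem hi)
    exact hQ _ (C.a.sub_mem hx (C.a.sum_mem fun i _ => hw i)) (ih h1) j
      (hK' (Finset.mem_insert_self _ _))

/-- one component -/
theorem P03_step (C : CSub L) (t : CRep J W) (ht : Irr t) (y : CRep J Y) (hy : Irr y)
    {H₁ H₄ x z : g} (hH₁ : Reg L C.a H₁) (hH₄ : Reg L C.a H₄) {w₁ : W} {u₁ : Y}
    (hw₁ : HW t C.a H₁ x w₁) (hu₁ : HW y C.a H₄ z u₁)
    (hsep : ∀ al ∈ roots L C.a, 0 < ⟪al, x⟫_ℝ → 0 ≤ ⟪al, x - z⟫_ℝ) :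
    ∃ (V : Type) (_ : NormedAddCommGroup V) (_ : InnerProductSpace ℂ V)
      (_ : FiniteDimensional ℂ V) (p : CRep J V) (b : V →ₗ[ℂ] Y →ₗ[ℂ] W), Irr p ∧
      (∀ Z v u, t.op Z (b v u) = b (p.op Z v) u + b v (y.op Z u)) ∧
      ∃ H₂ v₁, Reg L C.a H₂ ∧ HW p C.a H₂ (x - z) v₁ ∧ b v₁ u₁ ≠ 0 := by
  obtain ⟨H₃, hH₃, hd⟩ := exists_comm C hw₁.mem (C.a.sub_mem hw₁.mem hu₁.mem) hsep
  have hw₁' := hw_change t C hH₁ hw₁ hH₃ fun al ha hpos => (hd al ha hpos).1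
  obtain ⟨V, i1, i2, i3, p, b, hp, hb, v', hv', hb0⟩ := prv_exists C t ht y hy hH₃ hH₄ hw₁' hu₁
    fun al ha hpos => (hd al ha hpos).2
  exact ⟨V, i1, i2, i3, p, b, hp, hb, H₃, v', hH₃, hv', hb0⟩

end

section
variable {J : CStr L} {E : Type} [NormedAddCommGroup E] [InnerProductSpace ℂ E]
  [FiniteDimensional ℂ E]

theorem P03_aux (C : CSub L) {N : ℕ} {e : OrthonormalBasis (Fin N) ℂ E} {w : Fin N → g}
    {K : Finset (Fin N)} {q : ℝ} {s : CRep J E} (h : Orth C s e w K q) (hs : Irr s)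
    {Q : g → Prop} (hQ : ∀ x ∈ C.a, Q x → ∀ i ∈ K, Q (x - w i) ∧
      ∀ al ∈ roots L C.a, 0 < ⟪al, x⟫_ℝ → 0 ≤ ⟪al, x - w i⟫_ℝ) (n : ℕ) :
    ∀ K' : Finset (Fin N), K' ⊆ K → K'.card = n + 1 →
    ∀ (W : Type) (_ : NormedAddCommGroup W) (_ : InnerProductSpace ℂ W)
      (_ : FiniteDimensional ℂ W) (Y : Type) (_ : NormedAddCommGroup Y)
      (_ : InnerProductSpace ℂ Y) (_ : FiniteDimensional ℂ Y)
      (t : CRep J W) (_ : Irr t)
      (y : CRep J Y) (_ : Irr y) (H₁ H₄ mu : g) (_ : Reg L C.a H₁) (_ : Reg L C.a H₄)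
      (w₁ : W) (u₁ : Y) (_ : HW t C.a H₁ mu w₁) (_ : HW y C.a H₄ (∑ i ∈ K', w i) u₁)
      (_ : Q mu) (_ : Q (∑ i ∈ K', w i)),
    ∃ (V : Type) (_ : NormedAddCommGroup V) (_ : InnerProductSpace ℂ V)
      (_ : FiniteDimensional ℂ V) (p : CRep J V) (b : V →ₗ[ℂ] Y →ₗ[ℂ] W), Irr p ∧
      (∀ Z v u, t.op Z (b v u) = b (p.op Z v) u + b v (y.op Z u)) ∧
      ∃ H₂ v₁, Reg L C.a H₂ ∧ HW p C.a H₂ (mu - ∑ i ∈ K', w i) v₁ ∧ b v₁ u₁ ≠ 0 := by
  classical
  induction n with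
  | zero =>
    intro K' hK' hcard W _ _ _ Y _ _ _ t ht y hy H₁ H₄ mu hH₁ hH₄ w₁ u₁ hw₁ hu₁ hQmu hQy
    obtain ⟨i, rfl⟩ := Finset.card_eq_one.1 hcard
    have hi : i ∈ K := hK' (Finset.mem_singleton_self i)
    rw [Finset.sum_singleton] at hu₁ ⊢
    exact P03_step C t ht y hy hH₁ hH₄ hw₁ hu₁ (hQ mu hw₁.mem hQmu i hi).2
  | succ n ih =>
    intro K' hK' hcard W _ _ _ Y _ _ _ t ht y hy H₁ H₄ mu hH₁ hH₄ w₁ u₁ hw₁ hu₁ hQmu hQy
    have hne : K'.Nonempty := by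
      rw [← Finset.card_pos, hcard]
      exact Nat.succ_pos _
    obtain ⟨i₁, hi₁, hmin⟩ := K'.exists_min_image (fun j => ⟪mu - ∑ i ∈ K', w i, w j⟫_ℝ) hne
    have hi₁K := hK' hi₁
    have her : K'.erase i₁ ⊆ K := (Finset.erase_subset _ _).trans hK'
    have hce : (K'.erase i₁).card = n + 1 := by
      rw [Finset.card_erase_of_mem hi₁, hcard]
      rfl
    have hse : ∑ i ∈ K', w i - w i₁ = ∑ i ∈ K'.erase i₁, w i := by
      rw [← Finset.sum_erase_add _ _ hi₁, add_sub_cancel_right]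
    obtain ⟨H₀, hH₀, hE⟩ := h.ext i₁ hi₁K
    -- (1)
    have hq1 := hQ _ hu₁.mem hQy i₁ hi₁K
    obtain ⟨Y', k1, k2, k3, y', c, hy', hc, H₅, u₁', hH₅, hu₁', hc0⟩ :=
      P03_step C y hy s hs hH₄ hH₀ hu₁ hE hq1.2
    have hq2 : Q (∑ i ∈ K'.erase i₁, w i) := hse ▸ hq1.1
    rw [hse] at hu₁'
    -- (2)
    obtain ⟨V', l1, l2, l3, p', b', hp', hb', H₃, v₁', hH₃, hv₁', hb0⟩ :=
      ih (K'.erase i₁) her hce W _ _ inferInstance Y' k1 k2 k3 t ht y' hy' H₁ H₅ mu hH₁ hH₅ w₁ u₁'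
        hw₁ hu₁' hQmu hq2
    -- (3)
    have hq3 : Q (mu - ∑ i ∈ K'.erase i₁, w i) :=
      P03_Q C h.mem (fun x hx hQx i hi => (hQ x hx hQx i hi).1) her hw₁.mem hQmu
    obtain ⟨V, m1, m2, m3, p, a, hp, ha, H₂, v₁, hH₂, hv₁, ha0⟩ :=
      P03_step C p' hp' s hs hH₃ hH₀ hv₁' hE (hQ _ hv₁'.mem hq3 i₁ hi₁K).2
    have hv₁m : mu - ∑ i ∈ K'.erase i₁, w i - w i₁ = mu - ∑ i ∈ K', w i := by
      rw [← hse]
      abel
    rw [hv₁m] at hv₁
    refine ⟨V, m1, m2, m3, p, bmap e a b' c, hp, P01_b e s p p' y y' t ha hb' hc, H₂, v₁, hH₂, hv₁,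
      ?_⟩
    exact P01_ne C h hK' hi₁ p hp' hy hy' ht ha hb' hc hH₁ hH₂ hH₃ hH₄ hH₅ hw₁ hv₁ hv₁' hu₁ hu₁'
      hmin ha0 hb0 hc0

end

section
variable {J : CStr L} {E : Type} [NormedAddCommGroup E] [InnerProductSpace ℂ E]
  [FiniteDimensional ℂ E]
  {W : Type} [NormedAddCommGroup W] [InnerProductSpace ℂ W] [FiniteDimensional ℂ W]
  {Y : Type} [NormedAddCommGroup Y] [InnerProductSpace ℂ Y] [FiniteDimensional ℂ Y]

theorem prv_iter (C : CSub L) {N : ℕ} {e : OrthonormalBasis (Fin N) ℂ E} {w : Fin N → g}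
    {K : Finset (Fin N)} {q : ℝ} {s : CRep J E} (h : Orth C s e w K q) (hs : Irr s)
    {Q : g → Prop} (hQ : ∀ x ∈ C.a, Q x → ∀ i ∈ K, Q (x - w i) ∧
      ∀ al ∈ roots L C.a, 0 < ⟪al, x⟫_ℝ → 0 ≤ ⟪al, x - w i⟫_ℝ)
    {K' : Finset (Fin N)} (hK' : K' ⊆ K) (hne : K'.Nonempty) (t : CRep J W) (ht : Irr t)
    (y : CRep J Y) (hy : Irr y) {H₁ H₄ mu : g} (hH₁ : Reg L C.a H₁) (hH₄ : Reg L C.a H₄)
    {w₁ : W} {u₁ : Y} (hw₁ : HW t C.a H₁ mu w₁) (hu₁ : HW y C.a H₄ (∑ i ∈ K', w i) u₁)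
    (hQmu : Q mu) (hQy : Q (∑ i ∈ K', w i)) :
    ∃ (V : Type) (_ : NormedAddCommGroup V) (_ : InnerProductSpace ℂ V)
      (_ : FiniteDimensional ℂ V) (p : CRep J V) (b : V →ₗ[ℂ] Y →ₗ[ℂ] W), Irr p ∧
      (∀ Z v u, t.op Z (b v u) = b (p.op Z v) u + b v (y.op Z u)) ∧
      ∃ H₂ v₁, Reg L C.a H₂ ∧ HW p C.a H₂ (mu - ∑ i ∈ K', w i) v₁ ∧ b v₁ u₁ ≠ 0 := by
  have hcard : K'.card = (K'.card - 1) + 1 := by
    have := hne.card_pos
    omega
  exact P03_aux C h hs hQ _ K' hK' hcard W _ _ inferInstance Y _ _ inferInstance t ht y hy H₁ H₄ mu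
    hH₁ hH₄ w₁ u₁ hw₁ hu₁ hQmu hQy

end

end Pool.Agent.Lib.MP_4322ef_CH
end

section

/-!
# One step

* `qstep`: `hew'`: `ew` is a highest weight vector for some chamber (`qm_hw`). If `0 < ⟪al, x⟫ → 0 ≤ ⟪al, x - w⟫` for all roots:
  `P03_step`. Otherwise `0 < ⟪al, x⟫`, `⟪al, x - w⟫ < 0` for a root `al`. With the integers `2 ⟪x, al⟫ / ⟪al, al⟫ ≥ 1` (`wt_int`)
  and `2 ⟪w, al⟫ / ⟪al, al⟫` (`root_int`, `w` is a root by `hq`) the second is `≥ 2`; `⟪w, w⟫ ≤ ⟪al, al⟫` (`LShort`) and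
  Cauchy-Schwarz give `w = al`, and then `2 ⟪x, w⟫ = ⟪w, w⟫`. Put `la = x - w = sr w x`, a weight of `t` (`wt_refl`) with
  `⟪la, la⟫ = ⟪x, x⟫`, `⟪la, -w⟫ = ⟪w, w⟫ / 2`. `exists_chm` (via `exists_P`) with `x₁ = la`, `x₂ = w` gives `H'` with `la` dominant and
  `0 ≤ ⟪be, w⟫` for the positive `be` with `⟪be, la⟫ = 0`. `wt_long`: a highest weight vector of weight `la` for `H'`.
  Claim `al' = -w ∈ Simp L C.a H'`: positive since `⟪-w, la⟫ > 0`. Suppose `-w = be + be'` with positive roots. If `⟪be, la⟫ > 0`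
  and `⟪be', la⟫ > 0` then `2 ⟪be, la⟫ ≥ ⟪be, be⟫`, `2 ⟪be', la⟫ ≥ ⟪be', be'⟫` (`wt_int`), so
  `⟪w, w⟫ = 2 ⟪la, -w⟫ ≥ ⟪be, be⟫ + ⟪be', be'⟫`, but one of `⟪be, w⟫`, `⟪be', w⟫` is not zero and `LShort` gives a
  contradiction. Otherwise let `⟪be, la⟫ = 0` (or the same with `be'`); then `0 ≤ ⟪be, w⟫`, so
  `⟪be', be'⟫ = ⟪w + be, w + be⟫ > ⟪w, w⟫ = 2 ⟪la, be'⟫ = k ⟪be', be'⟫` with `k ≥ 1`: contradiction.
  Then `q_phi` and `phi_to`.
-/

set_option autoImplicit false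

open scoped InnerProductSpace

namespace Pool.Agent.Lib.MP_4322ef_CH

open Pool.Agent.Lib.MP_4322ef_al.SR

variable {g : Type} [NormedAddCommGroup g] [InnerProductSpace ℝ g] {L : RedLie g}
  [FiniteDimensional ℝ g]

theorem E06_ge {a b : ℝ} (hb : 0 < b) (h0 : 0 < a) {k : ℤ} (h : 2 * a = k * b) : b ≤ 2 * a := by
  have h1 : (0 : ℝ) < k := by
    by_contra hc
    push Not at hc
    nlinarith
  have h2 : (1 : ℤ) ≤ k := by
    have h3 : (0 : ℤ) < k := by exact_mod_cast h1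
    exact h3
  have h4 : (1 : ℝ) ≤ k := by exact_mod_cast h2
  nlinarith

section
variable {J : CStr L} {W : Type} [NormedAddCommGroup W] [InnerProductSpace ℂ W]
  [FiniteDimensional ℂ W]

omit [FiniteDimensional ℝ g] in
theorem E06_wt_ge (C : CSub L) (t : CRep J W) {la be : g} (hla : IsW t C.a la)
    (hbe : be ∈ roots L C.a) (h : 0 < ⟪be, la⟫_ℝ) : ⟪be, be⟫_ℝ ≤ 2 * ⟪be, la⟫_ℝ := by
  obtain ⟨k, hk⟩ := wt_int t C hla hbe
  rw [real_inner_comm be la] at hk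
  exact E06_ge (real_inner_self_pos.2 hbe.2.1) h hk

/-- a step which is not separated -/
theorem E06_eq (C : CSub L) (t : CRep J W) {x w al : g} (hx : IsW t C.a x) (hw : LShort L C.a w)
    (hal : al ∈ roots L C.a) (h1 : 0 < ⟪al, x⟫_ℝ) (h2 : ⟪al, x - w⟫_ℝ < 0) :
    w = al ∧ 2 * ⟪x, w⟫_ℝ = ⟪w, w⟫_ℝ := by
  obtain ⟨k, hk⟩ := wt_int t C hx hal
  obtain ⟨m, hm⟩ := root_int C hw.1 hal
  have ha : 0 < ⟪al, al⟫_ℝ := real_inner_self_pos.2 hal.2.1
  rw [inner_sub_right, real_inner_comm x al, real_inner_comm w al] at h2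
  rw [real_inner_comm x al] at h1
  have hk0 : (0 : ℝ) < k := by
    by_contra hc
    push Not at hc
    nlinarith
  have hk1 : (0 : ℤ) < k := by exact_mod_cast hk0
  have hkm : (k : ℝ) < m := by
    by_contra hc
    push Not at hc
    nlinarith
  have hkm1 : k < m := by exact_mod_cast hkm
  have hm2 : (2 : ℤ) ≤ m := by omega
  have hm3 : (2 : ℝ) ≤ m := by exact_mod_cast hm2
  have hwa : ⟪al, al⟫_ℝ ≤ ⟪w, al⟫_ℝ := by nlinarith
  have hww : ⟪w, w⟫_ℝ ≤ ⟪al, al⟫_ℝ := by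
    apply hw.2 al hal
    rw [real_inner_comm w al]
    exact (lt_of_lt_of_le ha hwa).ne'
  have hz : ⟪w - al, w - al⟫_ℝ ≤ 0 := by
    rw [inner_sub_left, inner_sub_right, inner_sub_right, real_inner_comm w al]
    linarith
  have hwal : w = al := sub_eq_zero.1 (real_inner_self_nonpos.1 hz)
  refine ⟨hwal, ?_⟩
  rw [← hwal] at hk ha h2
  have hk2 : (k : ℝ) < 2 := by
    by_contra hc
    push Not at hc
    nlinarith
  have hk3 : k < 2 := by exact_mod_cast hk2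
  have hk4 : k = 1 := by omega
  rw [hk, hk4, Int.cast_one, one_mul]

omit [FiniteDimensional ℝ g] in
/-- the negative of the weight is a simple root -/
theorem E06_simp (C : CSub L) (t : CRep J W) {la w H' : g} (hla : IsW t C.a la)
    (hw : LShort L C.a w) (hlw : 2 * ⟪la, -w⟫_ℝ = ⟪w, w⟫_ℝ) (hH' : Reg L C.a H')
    (hd : ∀ al ∈ roots L C.a, 0 < ⟪al, H'⟫_ℝ →
      0 ≤ ⟪al, la⟫_ℝ ∧ (⟪al, la⟫_ℝ = 0 → 0 ≤ ⟪al, w⟫_ℝ)) : -w ∈ Simp L C.a H' := by
  have hww : 0 < ⟪w, w⟫_ℝ := real_inner_self_pos.2 hw.1.2.1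
  have hnw := roots_neg C hw.1
  have key : ∀ be ∈ roots L C.a, 0 < ⟪be, H'⟫_ℝ → ∀ be' ∈ roots L C.a, -w = be + be' →
      ⟪be, la⟫_ℝ ≠ 0 := by
    intro be hbe hp be' hbe' he h0
    have h1 := (hd be hbe hp).2 h0
    have h2 : be' = -w - be := by rw [he, add_sub_cancel_left]
    have h3 : 2 * ⟪be', la⟫_ℝ = ⟪w, w⟫_ℝ := by
      rw [h2, inner_sub_left, h0, sub_zero, real_inner_comm]
      exact hlw
    have h4 : ⟪be', be'⟫_ℝ = ⟪w, w⟫_ℝ + 2 * ⟪be, w⟫_ℝ + ⟪be, be⟫_ℝ := by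
      rw [h2, inner_sub_left, inner_sub_right, inner_sub_right, inner_neg_left, inner_neg_right,
        inner_neg_left, inner_neg_right, real_inner_comm be w]
      ring
    have h5 := E06_wt_ge C t hla hbe' (by linarith)
    have h6 : 0 < ⟪be, be⟫_ℝ := real_inner_self_pos.2 hbe.2.1
    linarith
  refine ⟨hnw, ?_, ?_⟩
  · rcases lt_or_gt_of_ne (hH'.2 _ hnw) with h | h
    · rw [inner_neg_left] at h
      have h1 := (hd w hw.1 (by linarith)).1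
      rw [real_inner_comm, inner_neg_left] at hlw
      linarith
    · exact h
  · intro be hbe hp be' hbe' hp' he
    have h1 := key be hbe hp be' hbe' he
    have h2 := key be' hbe' hp' be hbe (he.trans (add_comm _ _))
    have h3 := E06_wt_ge C t hla hbe (lt_of_le_of_ne (hd be hbe hp).1 (Ne.symm h1))
    have h4 := E06_wt_ge C t hla hbe' (lt_of_le_of_ne (hd be' hbe' hp').1 (Ne.symm h2))
    have h5 : ⟪be, be⟫_ℝ + ⟪be', be'⟫_ℝ ≤ ⟪w, w⟫_ℝ := by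
      rw [← hlw, he, inner_add_right, real_inner_comm be la, real_inner_comm be' la]
      linarith
    have h6 : 0 < ⟪be, be⟫_ℝ := real_inner_self_pos.2 hbe.2.1
    have h7 : 0 < ⟪be', be'⟫_ℝ := real_inner_self_pos.2 hbe'.2.1
    have h8 : ⟪be, w⟫_ℝ + ⟪be', w⟫_ℝ = -⟪w, w⟫_ℝ := by
      rw [← inner_add_left, ← he, inner_neg_left]
    by_cases h9 : ⟪be, w⟫_ℝ = 0
    · have h10 : ⟪be', w⟫_ℝ ≠ 0 := by
        intro h11
        rw [h9, h11] at h8
        linarith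
      have := hw.2 be' hbe' h10
      linarith
    · have := hw.2 be hbe h9
      linarith

end

section
variable {J : CStr L} {W : Type} [NormedAddCommGroup W] [InnerProductSpace ℂ W]
  [FiniteDimensional ℂ W]
  {Y : Type} [NormedAddCommGroup Y] [InnerProductSpace ℂ Y] [FiniteDimensional ℂ Y]

theorem qstep (C : CSub L) (t : CRep J W) (ht : Irr t) (s : CRep J Y) (hs : Irr s) {q : ℝ}
    (hq : QM C s q) {H₁ x w : g} (hH₁ : Reg L C.a H₁) {v₁ : W} (hv₁ : HW t C.a H₁ x v₁)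
    (hw : w ∈ C.a) (hw0 : w ≠ 0) {ew : Y} (hew : WV s C.a w ew) (hew0 : ew ≠ 0) :
    ∃ (V : Type) (_ : NormedAddCommGroup V) (_ : InnerProductSpace ℂ V)
      (_ : FiniteDimensional ℂ V) (p : CRep J V) (b : V →ₗ[ℂ] Y →ₗ[ℂ] W), Irr p ∧
      (∀ Z v u, t.op Z (b v u) = b (p.op Z v) u + b v (s.op Z u)) ∧
      ∃ H₂ v₂, Reg L C.a H₂ ∧ HW p C.a H₂ (x - w) v₂ ∧ b v₂ ew ≠ 0 := by
  have hW : IsW t C.a x := ⟨hv₁.mem, v₁, hv₁.ne, hv₁.wt⟩
  obtain ⟨hls, -⟩ := hq w ⟨hw, ew, hew0, hew⟩ hw0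
  by_cases hsep : ∀ al ∈ roots L C.a, 0 < ⟪al, x⟫_ℝ → 0 ≤ ⟪al, x - w⟫_ℝ
  · obtain ⟨H₄, hH₄, hd⟩ := exists_comm C hw hw fun al _ hpos => hpos.le
    exact P03_step C t ht s hs hH₁ hH₄ hv₁
      (qm_hw s C hs hq hw hw0 hew hew0 hH₄ fun al ha hp => (hd al ha hp).1) hsep
  · push Not at hsep
    obtain ⟨al, hal, h1, h2⟩ := hsep
    obtain ⟨rfl, hxw⟩ := E06_eq C t hW hls hal h1 h2
    have hww : 0 < ⟪w, w⟫_ℝ := real_inner_self_pos.2 hw0
    have hsr : sr w x = x - w := by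
      rw [sr, hxw, div_self hww.ne', one_smul]
    obtain ⟨hla, x', hx'0, hx'⟩ := hsr ▸ wt_refl t C hW hal
    have hlw : 2 * ⟪x - w, -w⟫_ℝ = ⟪w, w⟫_ℝ := by
      rw [inner_neg_right, inner_sub_left]
      linarith
    have hn : ⟪x, x⟫_ℝ ≤ ⟪x - w, x - w⟫_ℝ := by
      rw [inner_sub_left, inner_sub_right, inner_sub_right, real_inner_comm x w]
      linarith
    obtain ⟨P, hP, hPm, hPh, hPv, hP0⟩ := exists_P C
    obtain ⟨H, hH, hd⟩ := exists_chm hP0 (⟨x - w, hla⟩ : C.a) (⟨w, hw⟩ : C.a)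
    have hH' : Reg L C.a (H : g) := ⟨H.2, fun al ha => hH ⟨al, ha.1⟩ ((hPm _).2 ha)⟩
    have hd' : ∀ al ∈ roots L C.a, 0 < ⟪al, (H : g)⟫_ℝ →
        0 ≤ ⟪al, x - w⟫_ℝ ∧ (⟪al, x - w⟫_ℝ = 0 → 0 ≤ ⟪al, w⟫_ℝ) := fun al ha hp =>
      hd ⟨al, ha.1⟩ ((hPm _).2 ha) hp
    have hv' := wt_long t C ht hH₁ hv₁ hla hx' hx'0 hn hH' fun al ha hp => (hd' al ha hp).1
    have hsi := E06_simp C t ⟨hla, x', hx'0, hx'⟩ hls hlw hH' hd'
    obtain ⟨φ, hφ1, hφ2, hφ3⟩ := q_phi C t ht s hq hH' hv' hsi hew hew0 (by linarith)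
    obtain ⟨V, i1, i2, i3, p, b, hp, hb, v', hv'', hb0⟩ := phi_to C t s hH' hla φ hφ1 hφ2 hφ3
    exact ⟨V, i1, i2, i3, p, b, hp, hb, H, v', hH', hv'', hb0⟩

end

end Pool.Agent.Lib.MP_4322ef_CH
end

section

/-!
# Components for all weights: a pair of terms

* `pair_eq`: `al = w i - w j` is a root with `⟪al, yy⟫ = 0 = ⟪al, mu⟫`, `⟪w i, w i⟫ = ⟪w j, w j⟫`, so `⟪w i, al⟫ = -⟪w j, al⟫ = κ`,
  `2 κ = ⟪al, al⟫ > 0`. The last part of the header of file P01 (proof of `P01_ne` in file P02) with `1` replaced by `i`: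
  `Z` of weight `al` with `Z (e j) = e i` and `(θ Z) (e i) = -e j` (as in `P01_root`: a root vector `Z₀` does not kill `e j`, since
  otherwise `0 ≤ ⟪w j, al⟫`; the weight spaces of `w i`, `w j` are lines, `hli`, `hlj`); `F = -θ Z`. `la = mu - yy`, `⟪la, al⟫ = 0`, so
  `F v₁ = 0`, `a v₁ (e j) = F (a v₁ (e i))`; `Z u₁ = 0`, so `c_j^* u₁ = -Z (c_i^* u₁)` (`P01_star`, as in file P02); with
  `a₁ = a v₁ (e i)`, `c₁ = c_i^* u₁`: `b' a₁ (Z c₁)` has the weight `mu + al`, longer than `mu`, so it is `0` (`P01_norm`),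
  hence `b' (F a₁) (Z c₁) = -b' a₁ (F Z c₁)`; `F c₁ = 0`: its weight `yy - w i - al` has norm square
  `⟪yy - w i, yy - w i⟫ + 2 κ + ⟪al, al⟫`, larger than that of the extreme weight of `y'` (`hn'`), use `P01_norm`; so
  `F Z c₁ = -[Z, F] c₁ = ⟪Z, Z⟫ κ c₁`; `⟪Z, Z⟫ κ = 1`: `F (Z (e j)) = e j`, `F (e j) = 0` (`hFj`),
  `F Z (e j) = Z F (e j) - [Z, F] (e j) = ⟪Z, Z⟫ κ (e j)`.
-/

set_option autoImplicit false

open scoped InnerProductSpace

namespace Pool.Agent.Lib.MP_4322ef_CH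

open Pool.Agent.Lib.MP_4322ef_al.SR

variable {g : Type} [NormedAddCommGroup g] [InnerProductSpace ℝ g] {L : RedLie g}
  [FiniteDimensional ℝ g]

section
variable {J : CStr L} {E : Type} [NormedAddCommGroup E] [InnerProductSpace ℂ E]
  [FiniteDimensional ℂ E]
  {W : Type} [NormedAddCommGroup W] [InnerProductSpace ℂ W] [FiniteDimensional ℂ W]
  {Y : Type} [NormedAddCommGroup Y] [InnerProductSpace ℂ Y] [FiniteDimensional ℂ Y]

omit [FiniteDimensional ℝ g] [FiniteDimensional ℂ E] in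
theorem E07a_root (C : CSub L) {N : ℕ} {e : OrthonormalBasis (Fin N) ℂ E} {w : Fin N → g}
    {s : CRep J E} (hwv : ∀ i, w i ∈ C.a ∧ WV s C.a (w i) (e i)) {i j : Fin N}
    (hli : ∀ x, WV s C.a (w i) x → x = ⟪e i, x⟫_ℂ • e i)
    (hlj : ∀ x, WV s C.a (w j) x → x = ⟪e j, x⟫_ℂ • e j)
    (hal : w i - w j ∈ roots L C.a)
    (hFj : ∀ x, WV s C.a (w j - (w i - w j)) x → x = 0) {ka : ℝ} (hk : 0 < ka)
    (hkj : ⟪w j, w i - w j⟫_ℝ = -ka) :
    ∃ Z, RV L C.a (w i - w j) Z ∧ s.op Z (e j) = e i ∧ s.op (L.th Z) (e i) = -e j := by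
  obtain ⟨hala, hal0, Z₀, hZ0, hZ₀⟩ := hal
  have hZ₀' : RV L C.a (w i - w j) Z₀ := hZ₀
  have hFz : s.op (L.th Z₀) (e j) = 0 := by
    refine hFj _ ?_
    have h1 := wt_shift s C (RV_th C hZ₀') (hwv j).2
    rwa [add_comm, ← sub_eq_add_neg] at h1
  -- the image of `e j` is not zero
  have hne : s.op Z₀ (e j) ≠ 0 := by
    intro h2
    have h6 := s.bracket Z₀ (L.th Z₀) (e j)
    rw [h2, hFz, map_zero, map_zero, sub_zero, br_th_root C hala hZ₀', Rep.neg',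
      LinearMap.neg_apply, s.smul, LinearMap.smul_apply, (hwv j).2 _ hala, smul_smul, hkj,
      neg_eq_zero, ← Complex.ofReal_mul] at h6
    rcases smul_eq_zero.1 h6 with h3 | h3
    · rw [Complex.ofReal_eq_zero] at h3
      have h4 : 0 < ⟪Z₀, Z₀⟫_ℝ * ka := mul_pos (real_inner_self_pos.2 hZ0) hk
      linarith
    · exact absurd h3 (e.orthonormal.ne_zero j)
  have hw1 : WV s C.a (w i) (s.op Z₀ (e j)) := by
    have h1 := wt_shift s C hZ₀' (hwv j).2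
    rwa [sub_add_cancel] at h1
  have hc := hli _ hw1
  obtain ⟨c, hcd⟩ : ∃ c : ℂ, c = ⟪e i, s.op Z₀ (e j)⟫_ℂ := ⟨_, rfl⟩
  rw [← hcd] at hc
  have hc0 : c ≠ 0 := by
    rintro rfl
    rw [zero_smul] at hc
    exact hne hc
  obtain ⟨Z, hZd⟩ : ∃ Z : g, Z = (c⁻¹).re • Z₀ + (c⁻¹).im • J.J Z₀ := ⟨_, rfl⟩
  have hop : s.op Z = c⁻¹ • s.op Z₀ := by
    rw [hZd, s.add, s.smul, s.smul, s.lin, smul_smul, ← add_smul, Complex.re_add_im]
  have hRV : RV L C.a (w i - w j) Z := by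
    intro H hH
    rw [hZd, map_add, map_smul, map_smul, hZ₀' H hH, RV_J J C hZ₀' H hH]
    module
  have hZe : s.op Z (e j) = e i := by
    rw [hop, LinearMap.smul_apply, hc, smul_smul, inv_mul_cancel₀ hc0, one_smul]
  refine ⟨Z, hRV, hZe, ?_⟩
  have hw2 : WV s C.a (w j) (s.op (L.th Z) (e i)) := by
    have h1 := wt_shift s C (RV_th C hRV) (hwv i).2
    rwa [neg_sub, sub_add_cancel] at h1
  rw [hlj _ hw2]
  have h3 := s.adj Z (e j) (e i)
  rw [hZe] at h3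
  have h4 : ⟪e i, e i⟫_ℂ = 1 := by
    rw [e.inner_eq_one]
  rw [h4] at h3
  have h5 : ⟪e j, s.op (L.th Z) (e i)⟫_ℂ = -1 := by
    rw [h3, neg_neg]
  rw [h5, neg_one_smul]

section
variable {V : Type} [NormedAddCommGroup V] [InnerProductSpace ℂ V] [FiniteDimensional ℂ V]
  {V' : Type} [NormedAddCommGroup V'] [InnerProductSpace ℂ V'] [FiniteDimensional ℂ V']
  {Y' : Type} [NormedAddCommGroup Y'] [InnerProductSpace ℂ Y'] [FiniteDimensional ℂ Y']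

theorem pair_eq (C : CSub L) {N : ℕ} {e : OrthonormalBasis (Fin N) ℂ E} {w : Fin N → g}
    {s : CRep J E} (hwv : ∀ i, w i ∈ C.a ∧ WV s C.a (w i) (e i)) {i j : Fin N}
    (hli : ∀ x, WV s C.a (w i) x → x = ⟪e i, x⟫_ℂ • e i)
    (hlj : ∀ x, WV s C.a (w j) x → x = ⟪e j, x⟫_ℂ • e j)
    (hal : w i - w j ∈ roots L C.a) (hnn : ⟪w i, w i⟫_ℝ = ⟪w j, w j⟫_ℝ)
    (hFj : ∀ x, WV s C.a (w j - (w i - w j)) x → x = 0)
    (hEi : ∀ x, WV s C.a (w i + (w i - w j)) x → x = 0)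
    {p : CRep J V} {p' : CRep J V'} {y : CRep J Y} {y' : CRep J Y'} (hy' : Irr y')
    {t : CRep J W} (ht : Irr t)
    {a : V →ₗ[ℂ] E →ₗ[ℂ] V'} {b' : V' →ₗ[ℂ] Y' →ₗ[ℂ] W} {c : Y' →ₗ[ℂ] E →ₗ[ℂ] Y}
    (ha : ∀ Z v x, p'.op Z (a v x) = a (p.op Z v) x + a v (s.op Z x))
    (hb : ∀ Z v u, t.op Z (b' v u) = b' (p'.op Z v) u + b' v (y'.op Z u))
    (hc : ∀ Z u x, y.op Z (c u x) = c (y'.op Z u) x + c u (s.op Z x))
    {H₁ H₂ H₄ H₅ mu yy y'' : g} (hH₁ : Reg L C.a H₁) (hH₂ : Reg L C.a H₂)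
    (hH₄ : Reg L C.a H₄) (hH₅ : Reg L C.a H₅) {w₁ : W} {v₁ : V} {u₁ : Y} {u₁' : Y'}
    (hw₁ : HW t C.a H₁ mu w₁) (hv₁ : HW p C.a H₂ (mu - yy) v₁)
    (hu₁ : HW y C.a H₄ yy u₁) (hu₁' : HW y' C.a H₅ y'' u₁')
    (hn' : ⟪y'', y''⟫_ℝ = ⟪yy - w i, yy - w i⟫_ℝ)
    (hoy : ⟪yy, w i - w j⟫_ℝ = 0) (hom : ⟪mu, w i - w j⟫_ℝ = 0) :
    b' (a v₁ (e j)) (LinearMap.adjoint (c.flip (e j)) u₁) =
      b' (a v₁ (e i)) (LinearMap.adjoint (c.flip (e i)) u₁) := by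
  obtain ⟨ka, hka⟩ : ∃ ka : ℝ, ka = ⟪w i, w i - w j⟫_ℝ := ⟨_, rfl⟩
  have hkj : ⟪w j, w i - w j⟫_ℝ = -ka := by
    rw [hka, inner_sub_right, inner_sub_right, hnn, real_inner_comm (w i) (w j)]
    ring
  have hkk : ⟪w i - w j, w i - w j⟫_ℝ = 2 * ka := by
    rw [inner_sub_left, ← hka, hkj]
    ring
  have hala : w i - w j ∈ C.a := hal.1
  have hal0 : w i - w j ≠ 0 := hal.2.1
  have hnal : -(w i - w j) ∈ C.a := C.a.neg_mem hala
  have hnal0 : -(w i - w j) ≠ 0 := neg_ne_zero.2 hal0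
  have hkpos : 0 < ka := by
    have h1 : 0 < ⟪w i - w j, w i - w j⟫_ℝ := real_inner_self_pos.2 hal0
    linarith
  obtain ⟨Z, hZ, hZe, hthe⟩ := E07a_root C hwv hli hlj hal hFj (ka := ka) hkpos hkj
  have hZ' := RV_th C hZ
  have haw : WV p' C.a ((mu - yy) + w i) (a v₁ (e i)) := P02_aw C ha hv₁.wt (hwv i).2
  have hcw : WV y' C.a (yy - w i) (LinearMap.adjoint (c.flip (e i)) u₁) :=
    P02_cw C hc hu₁.wt (hwv i).2
  have hyya : yy ∈ C.a := hu₁.mem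
  have hlama : mu - yy ∈ C.a := hv₁.mem
  have k1 : p.op (L.th Z) v₁ = 0 := by
    refine ext_kill p C hH₂ hv₁ hnal hnal0 hZ' ?_
    rw [real_inner_comm, inner_neg_right, inner_sub_left, hom, hoy, sub_self, neg_zero]
  have k2 : a v₁ (e j) = -p'.op (L.th Z) (a v₁ (e i)) := by
    rw [ha, k1, map_zero, LinearMap.zero_apply, zero_add, hthe, map_neg, neg_neg]
  have k3 : y.op Z u₁ = 0 := by
    refine ext_kill y C hH₄ hu₁ hala hal0 hZ ?_
    rw [real_inner_comm, hoy]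
  have k4 : LinearMap.adjoint (c.flip (e j)) u₁ =
      -y'.op Z (LinearMap.adjoint (c.flip (e i)) u₁) := by
    rw [P01_star s y y' hc Z (e i) u₁, k3, map_zero, zero_add, hthe, map_neg, map_neg,
      LinearMap.neg_apply, neg_neg]
  have k5 : y'.op (L.th Z) (LinearMap.adjoint (c.flip (e i)) u₁) = 0 := by
    by_contra hne
    have hwt := wt_shift y' C hZ' hcw
    have hn := P01_norm y' C hy' hH₅ hu₁' (lam := -(w i - w j) + (yy - w i))
      ⟨C.a.add_mem hnal (C.a.sub_mem hyya (hwv i).1), _, hne, hwt⟩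
    have h1 : ⟪-(w i - w j), yy - w i⟫_ℝ = ka := by
      rw [inner_neg_left, real_inner_comm, inner_sub_left, hoy, ← hka]
      ring
    rw [real_inner_add_add_self, inner_neg_neg, h1, hkk, hn'] at hn
    linarith
  have k6 : s.op Z (e i) = 0 := by
    refine hEi _ ?_
    have h1 := wt_shift s C hZ (hwv i).2
    rwa [add_comm] at h1
  have k7 : ⟪Z, Z⟫_ℝ * ka = 1 := by
    have h1 := s.bracket Z (L.th Z) (e i)
    rw [k6, map_zero, sub_zero, hthe, map_neg, hZe, br_th_root C hala hZ, Rep.neg',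
      LinearMap.neg_apply, s.smul, LinearMap.smul_apply, (hwv i).2 _ hala, smul_smul,
      ← hka, neg_inj, ← Complex.ofReal_mul] at h1
    have h2 : (((⟪Z, Z⟫_ℝ * ka : ℝ) : ℂ) - 1) • e i = 0 := by
      rw [sub_smul, h1, one_smul, sub_self]
    rcases smul_eq_zero.1 h2 with h3 | h3
    · rw [sub_eq_zero] at h3
      exact_mod_cast h3
    · exact absurd h3 (e.orthonormal.ne_zero i)
  have k8 : y'.op (L.th Z) (y'.op Z (LinearMap.adjoint (c.flip (e i)) u₁)) =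
      -LinearMap.adjoint (c.flip (e i)) u₁ := by
    have h1 := y'.bracket Z (L.th Z) (LinearMap.adjoint (c.flip (e i)) u₁)
    have h2 : ⟪yy - w i, w i - w j⟫_ℝ = -ka := by
      rw [inner_sub_left, hoy, ← hka]
      ring
    rw [k5, map_zero, zero_sub, br_th_root C hala hZ, Rep.neg', LinearMap.neg_apply, neg_inj,
      y'.smul, LinearMap.smul_apply, hcw _ hala, smul_smul, h2, ← Complex.ofReal_mul,
      mul_neg, k7] at h1
    rw [← h1]
    simp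
  have k9 : b' (a v₁ (e i)) (y'.op Z (LinearMap.adjoint (c.flip (e i)) u₁)) = 0 := by
    by_contra hne
    have hmua : mu ∈ C.a := hw₁.mem
    have hwt := P02_aw C hb haw (wt_shift y' C hZ hcw)
    have he : (mu - yy) + w i + ((w i - w j) + (yy - w i)) = mu + (w i - w j) := by abel
    rw [he] at hwt
    have hn := P01_norm t C ht hH₁ hw₁ (lam := mu + (w i - w j))
      ⟨C.a.add_mem hmua hala, _, hne, hwt⟩
    rw [real_inner_add_add_self, hom] at hn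
    linarith
  have k10 := hb (L.th Z) (a v₁ (e i)) (y'.op Z (LinearMap.adjoint (c.flip (e i)) u₁))
  rw [k9, map_zero, k8, map_neg] at k10
  rw [k2, k4, map_neg, map_neg, LinearMap.neg_apply, neg_neg]
  exact (eq_of_sub_eq_zero (by rw [sub_eq_add_neg]; exact k10.symm))

end

end

end Pool.Agent.Lib.MP_4322ef_CH
end

section

/-!
# Representations from the adjoint representation

* `exists_mult`: `y` from `simp_dual` (`⟪ga, y⟫ = 1`, `⟪de, y⟫ = 0` for the other simple roots; `y` is dominant by `simp_dec`).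
  `m = max ⟪be, y⟫ > 0` over the roots, `K` = the set of the roots `be` with `⟪be, y⟫ = m` of maximal norm among them. Each `be ∈ K`
  satisfies the hypothesis of `adj_irr`: let `de` be a root with `⟪be, de⟫ ≠ 0`, `⟪de, de⟫ > ⟪be, be⟫`; we may assume `⟪be, de⟫ > 0`. Let
  `k = 2 ⟪de, be⟫ / ⟪be, be⟫ ≥ 2` (an integer, larger than the positive integer `2 ⟪de, be⟫ / ⟪de, de⟫`); `de' = sr be de = de - k be` and
  `sr de be = be - de` (since `2 ⟪be, de⟫ / ⟪de, de⟫ = 1`: the product of the two integers is `≤ 3`, it is not `4`, as `be`, `de` are not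
  proportional by `root_two`, or directly). If `⟪de, y⟫ < 0` ... it is simpler to use: `s = ⟪de, y⟫ ≤ m`; `⟪de - k be, y⟫ = s - k m ≥ -m`
  (as `-(de - k be)` is a root), so `s ≥ (k - 1) m ≥ m`; so `s = m`, and `de` is in the first set and longer: contradiction.
  List `K` with decreasing `⟪·, H⟫`; the initial sums `x j` are `H`-dominant: let `al` be positive, `x j = ∑_{be ∈ K'} be`, where `K'` is an
  upper subset of `K`. If `⟪al, y⟫ > 0` then `⟪be, al⟫ ≥ 0` for `be ∈ K` (otherwise `sr al be` has `⟪·, y⟫ > m`). If `⟪al, y⟫ = 0`: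
  `sr al` maps `K` to `K`; if `be ∈ K'`, `⟪be, al⟫ < 0` then `sr al be ∈ K` has larger `⟪·, H⟫`, so it is in `K'`, and
  `⟪sr al be, al⟫ = -⟪be, al⟫`: the negative terms cancel against positive ones. By induction there are irreducible representations
  with highest weights `x j` for `H`: `x (j + 1) = x j - (-be)`, `P03_step` for `x j` and the representation of `adj_irr` with extreme weight
  `-be` (also in the situation of `adj_irr`), `hw_change`. The last one is `y' = ∑_{be ∈ K} be`: `Semi`, and `⟪y', de⟫ = 0` for the simple roots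
  `de ≠ ga`, since `sr de` maps `K` to itself; `⟪y', y⟫ = |K| m > 0`; `0 < ⟪ga, y'⟫` since otherwise `⟪·, y'⟫ = 0` for all roots
  (`simp_zero`), so `⟪y', y⟫ = 0` (`Semi y`).
-/

set_option autoImplicit false

open scoped InnerProductSpace

namespace Pool.Agent.Lib.MP_4322ef_CH

open Pool.Agent.Lib.MP_4322ef_al.SR

variable {g : Type} [NormedAddCommGroup g] [InnerProductSpace ℝ g] {L : RedLie g}
  [FiniteDimensional ℝ g]

omit [FiniteDimensional ℝ g] in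
theorem H06_pos (C : CSub L) {al : g} (h : al ∈ roots L C.a) : 0 < ⟪al, al⟫_ℝ :=
  real_inner_self_pos.2 h.2.1

omit [FiniteDimensional ℝ g] in
theorem H06_sr_self {al be : g} (h : al ≠ 0) : ⟪al, sr al be⟫_ℝ = -⟪al, be⟫_ℝ := by
  have h1 : ⟪al, al⟫_ℝ ≠ 0 := inner_self_ne_zero.2 h
  rw [sr, inner_sub_right, inner_smul_right, div_mul_cancel₀ _ h1, real_inner_comm]
  ring

omit [FiniteDimensional ℝ g] in
theorem H06_sr_y {al be y : g} : ⟪sr al be, y⟫_ℝ =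
    ⟪be, y⟫_ℝ - 2 * ⟪be, al⟫_ℝ / ⟪al, al⟫_ℝ * ⟪al, y⟫_ℝ := by
  rw [sr, inner_sub_left, real_inner_smul_left]

omit [FiniteDimensional ℝ g] in
theorem H06_sr_norm {al be : g} (h : al ≠ 0) : ⟪sr al be, sr al be⟫_ℝ = ⟪be, be⟫_ℝ := by
  have h1 : ⟪al, al⟫_ℝ ≠ 0 := inner_self_ne_zero.2 h
  have h2 : ⟪sr al be, al⟫_ℝ = -⟪be, al⟫_ℝ := by
    rw [real_inner_comm, H06_sr_self h, real_inner_comm]
  have h3 : ∀ u : g, ⟪u, sr al be⟫_ℝ = ⟪u, be⟫_ℝ -
      2 * ⟪be, al⟫_ℝ / ⟪al, al⟫_ℝ * ⟪u, al⟫_ℝ := by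
    intro u
    rw [sr, inner_sub_right, real_inner_smul_right]
  rw [h3 (sr al be), h2, H06_sr_y, real_inner_comm be al]
  ring

omit [FiniteDimensional ℝ g] in
theorem H06_sr_sr {al be : g} (h : al ≠ 0) : sr al (sr al be) = be := by
  have h2 : ⟪sr al be, al⟫_ℝ = -⟪be, al⟫_ℝ := by
    rw [real_inner_comm, H06_sr_self h, real_inner_comm]
  have h3 : sr al (sr al be) = sr al be - (2 * ⟪sr al be, al⟫_ℝ / ⟪al, al⟫_ℝ) • al := rfl
  rw [h3, h2]
  have h4 : sr al be = be - (2 * ⟪be, al⟫_ℝ / ⟪al, al⟫_ℝ) • al := rfl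
  rw [h4, sub_sub, ← add_smul]
  have h5 : 2 * ⟪be, al⟫_ℝ / ⟪al, al⟫_ℝ + 2 * -⟪be, al⟫_ℝ / ⟪al, al⟫_ℝ = 0 := by ring
  rw [h5, zero_smul, sub_zero]

/-- the dominance of `y` -/
theorem H06_dom (C : CSub L) {H ga y : g} (hH : Reg L C.a H) (h1 : ⟪ga, y⟫_ℝ = 1)
    (h0 : ∀ de ∈ Simp L C.a H, de ≠ ga → ⟪de, y⟫_ℝ = 0) {al : g} (hal : al ∈ roots L C.a)
    (hp : 0 < ⟪al, H⟫_ℝ) : 0 ≤ ⟪al, y⟫_ℝ := by
  have key : ∀ x ∈ AddSubmonoid.closure (Simp L C.a H), 0 ≤ ⟪x, y⟫_ℝ := by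
    intro x hx
    induction hx using AddSubmonoid.closure_induction with
    | mem x hx =>
      by_cases hxg : x = ga
      · rw [hxg, h1]
        exact zero_le_one
      · rw [h0 x hx hxg]
    | zero => rw [inner_zero_left]
    | add x z _ _ hx hz =>
      rw [inner_add_left]
      exact add_nonneg hx hz
  exact key _ (simp_dec C hH hal hp)

/-- the two maximality properties of `be` -/
def H06_max (L : RedLie g) (a : Submodule ℝ g) (y : g) (m q : ℝ) : Prop :=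
  0 < m ∧ (∀ al ∈ roots L a, ⟪al, y⟫_ℝ ≤ m) ∧
    ∀ al ∈ roots L a, ⟪al, y⟫_ℝ = m → ⟪al, al⟫_ℝ ≤ q

/-- the set `K` -/
def H06_K (L : RedLie g) (a : Submodule ℝ g) (y : g) (m q : ℝ) : Set g :=
  {be | be ∈ roots L a ∧ ⟪be, y⟫_ℝ = m ∧ ⟪be, be⟫_ℝ = q}

theorem H06_long (C : CSub L) {y : g} {m q : ℝ} (hm : H06_max L C.a y m q) {be : g}
    (hbe : be ∈ H06_K L C.a y m q) {de : g} (hde : de ∈ roots L C.a) (h0 : ⟪de, be⟫_ℝ ≠ 0) :
    ⟪de, de⟫_ℝ ≤ ⟪be, be⟫_ℝ := by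
  obtain ⟨hb, hby, hbq⟩ := hbe
  obtain ⟨hm0, hm1, hm2⟩ := hm
  have key : ∀ de ∈ roots L C.a, 0 < ⟪de, be⟫_ℝ → ⟪de, de⟫_ℝ ≤ ⟪be, be⟫_ℝ := by
    intro de hde hpos
    by_contra hlt
    rw [not_le] at hlt
    obtain ⟨k, hk⟩ := root_int C hde hb
    obtain ⟨l, hl⟩ := root_int C hb hde
    have hbb := H06_pos C hb
    have hdd := H06_pos C hde
    rw [real_inner_comm] at hl
    have hk0 : 0 < k := by
      have : (0 : ℝ) < k := by
        by_contra hc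
        rw [not_lt] at hc
        nlinarith
      exact_mod_cast this
    have hl0 : 0 < l := by
      have : (0 : ℝ) < l := by
        by_contra hc
        rw [not_lt] at hc
        nlinarith
      exact_mod_cast this
    have hlk : l < k := by
      have h1 : (l : ℝ) < k := by
        by_contra hc
        rw [not_lt] at hc
        have hk' : (0 : ℝ) < k := by exact_mod_cast hk0
        nlinarith
      exact_mod_cast h1
    have hk2 : (2 : ℝ) ≤ k := by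
      have : 2 ≤ k := by omega
      exact_mod_cast this
    have h3 : sr be de ∈ roots L C.a := roots_refl C hb hde
    have h4 := hm1 _ (roots_neg C h3)
    have h5 : 2 * ⟪de, be⟫_ℝ / ⟪be, be⟫_ℝ = k := by
      rw [hk, mul_div_assoc, div_self hbb.ne', mul_one]
    rw [inner_neg_left, H06_sr_y, h5, hby] at h4
    have h6 := hm1 de hde
    have h7 : ⟪de, y⟫_ℝ = m := by nlinarith
    have h8 := hm2 de hde h7
    rw [hbq] at hlt
    exact absurd h8 (not_le.2 hlt)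
  rcases lt_or_gt_of_ne h0 with h | h
  · have h1 := key (-de) (roots_neg C hde) (by rw [inner_neg_left]; linarith)
    rwa [inner_neg_neg] at h1
  · exact key de hde h

theorem H06_Krefl (C : CSub L) {y : g} {m q : ℝ} {al be : g} (hal : al ∈ roots L C.a)
    (h0 : ⟪al, y⟫_ℝ = 0) (hbe : be ∈ H06_K L C.a y m q) : sr al be ∈ H06_K L C.a y m q := by
  refine ⟨roots_refl C hal hbe.1, ?_, ?_⟩
  · rw [H06_sr_y, h0, mul_zero, sub_zero, hbe.2.1]
  · rw [H06_sr_norm hal.2.1, hbe.2.2]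

theorem H06_Kpos (C : CSub L) {y : g} {m q : ℝ} (hm : H06_max L C.a y m q) {al be : g}
    (hal : al ∈ roots L C.a) (h0 : 0 < ⟪al, y⟫_ℝ) (hbe : be ∈ H06_K L C.a y m q) :
    0 ≤ ⟪al, be⟫_ℝ := by
  by_contra hc
  rw [not_le] at hc
  have h1 := hm.2.1 _ (roots_refl C hal hbe.1)
  have h2 := H06_pos C hal
  rw [H06_sr_y, hbe.2.1, real_inner_comm] at h1
  have h3 : 2 * ⟪al, be⟫_ℝ / ⟪al, al⟫_ℝ < 0 := div_neg_of_neg_of_pos (by linarith) h2
  nlinarith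

/-- upper subsets of `K` -/
def H06_up (L : RedLie g) (a : Submodule ℝ g) (y H : g) (m q : ℝ) (K' : Finset g) : Prop :=
  (∀ be ∈ K', be ∈ H06_K L a y m q) ∧
    ∀ be ∈ K', ∀ be' ∈ H06_K L a y m q, ⟪be, H⟫_ℝ < ⟪be', H⟫_ℝ → be' ∈ K'

theorem H06_updom (C : CSub L) {y H : g} {m q : ℝ} (hm : H06_max L C.a y m q)
    (hd : ∀ al ∈ roots L C.a, 0 < ⟪al, H⟫_ℝ → 0 ≤ ⟪al, y⟫_ℝ) {K' : Finset g}
    (hK : H06_up L C.a y H m q K') {al : g} (hal : al ∈ roots L C.a) (hp : 0 < ⟪al, H⟫_ℝ) :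
    0 ≤ ⟪al, ∑ be ∈ K', be⟫_ℝ := by
  classical
  rw [inner_sum]
  rcases (hd al hal hp).eq_or_lt with h0 | h0
  · have hinj : Set.InjOn (sr al) (K'.filter fun be => ⟪al, be⟫_ℝ < 0) := by
      intro x _ x' _ hxx
      rw [← H06_sr_sr (be := x) hal.2.1, hxx, H06_sr_sr hal.2.1]
    have hsub : (K'.filter fun be => ⟪al, be⟫_ℝ < 0).image (sr al) ⊆
        K'.filter fun be => ¬⟪al, be⟫_ℝ < 0 := by
      intro z hz
      obtain ⟨x, hx, rfl⟩ := Finset.mem_image.1 hz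
      obtain ⟨hxK, hx0⟩ := Finset.mem_filter.1 hx
      have h1 := H06_Krefl C hal h0.symm (hK.1 x hxK)
      refine Finset.mem_filter.2 ⟨hK.2 x hxK _ h1 ?_, ?_⟩
      · rw [H06_sr_y]
        have h3 : 2 * ⟪x, al⟫_ℝ / ⟪al, al⟫_ℝ < 0 := by
          rw [real_inner_comm]
          exact div_neg_of_neg_of_pos (by linarith) (H06_pos C hal)
        nlinarith
      · rw [H06_sr_self hal.2.1]
        linarith
    have h2 : ∑ be ∈ (K'.filter fun be => ⟪al, be⟫_ℝ < 0).image (sr al), ⟪al, be⟫_ℝ ≤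
        ∑ be ∈ K'.filter fun be => ¬⟪al, be⟫_ℝ < 0, ⟪al, be⟫_ℝ := by
      refine Finset.sum_le_sum_of_subset_of_nonneg hsub ?_
      intro x hx _
      exact not_lt.1 (Finset.mem_filter.1 hx).2
    rw [Finset.sum_image hinj] at h2
    have h3 : ∑ x ∈ K'.filter (fun be => ⟪al, be⟫_ℝ < 0), ⟪al, sr al x⟫_ℝ =
        -∑ x ∈ K'.filter (fun be => ⟪al, be⟫_ℝ < 0), ⟪al, x⟫_ℝ := by
      rw [← Finset.sum_neg_distrib]
      exact Finset.sum_congr rfl fun x _ => H06_sr_self hal.2.1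
    rw [h3] at h2
    rw [← Finset.sum_filter_add_sum_filter_not K' (fun be => ⟪al, be⟫_ℝ < 0)]
    linarith
  · exact Finset.sum_nonneg fun be hbe => H06_Kpos C hm hal h0 (hK.1 be hbe)

theorem H06_rep (J : CStr L) (C : CSub L) {y H : g} {m q : ℝ} (hH : Reg L C.a H)
    (hm : H06_max L C.a y m q)
    (hd : ∀ al ∈ roots L C.a, 0 < ⟪al, H⟫_ℝ → 0 ≤ ⟪al, y⟫_ℝ) (n : ℕ) :
    ∀ K' : Finset g, K'.card = n + 1 → H06_up L C.a y H m q K' →
    ∃ (V : Type) (_ : NormedAddCommGroup V) (_ : InnerProductSpace ℂ V)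
        (_ : FiniteDimensional ℂ V) (t : CRep J V) (v : V), Irr t ∧
        HW t C.a H (∑ be ∈ K', be) v := by
  classical
  induction n with
  | zero =>
    intro K' hc hK
    obtain ⟨be, rfl⟩ := Finset.card_eq_one.1 hc
    have hb := hK.1 be (Finset.mem_singleton_self be)
    obtain ⟨E, i1, i2, i3, s, H₁, x, hs, hH₁, hx⟩ := adj_irr J C hb.1
      fun de hde h0 => H06_long C hm hb hde h0
    have hdom : ∀ al ∈ roots L C.a, 0 < ⟪al, H⟫_ℝ → 0 ≤ ⟪al, be⟫_ℝ := by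
      intro al hal hp
      have h1 := H06_updom C hm hd hK hal hp
      rwa [Finset.sum_singleton] at h1
    refine ⟨E, i1, i2, i3, s, x, hs, ?_⟩
    rw [Finset.sum_singleton]
    exact hw_change s C hH₁ hx hH hdom
  | succ n ih =>
    intro K' hc hK
    have hne : K'.Nonempty := by
      rw [← Finset.card_pos, hc]
      exact Nat.succ_pos _
    obtain ⟨be, hbe, hmin⟩ := K'.exists_min_image (fun x => ⟪x, H⟫_ℝ) hne
    have hb := hK.1 be hbe
    have hup : H06_up L C.a y H m q (K'.erase be) := by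
      refine ⟨fun x hx => hK.1 x (Finset.mem_of_mem_erase hx), ?_⟩
      intro x hx x' hx' hlt
      have hxK := Finset.mem_of_mem_erase hx
      refine Finset.mem_erase.2 ⟨?_, hK.2 x hxK x' hx' hlt⟩
      rintro rfl
      exact absurd (hmin x hxK) (not_le.2 hlt)
    have hce : (K'.erase be).card = n + 1 := by
      rw [Finset.card_erase_of_mem hbe, hc]
      rfl
    obtain ⟨V, i1, i2, i3, t, v, ht, hv⟩ := ih (K'.erase be) hce hup
    have hnb : -be ∈ roots L C.a := roots_neg C hb.1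
    obtain ⟨E, j1, j2, j3, s, H₁, x, hs, hH₁, hx⟩ := adj_irr J C hnb
      fun de hde h0 => by
        rw [inner_neg_neg]
        refine H06_long C hm hb hde fun h1 => h0 ?_
        rw [inner_neg_right, h1, neg_zero]
    have hsum : (∑ z ∈ K'.erase be, z) - -be = ∑ z ∈ K', z := by
      rw [sub_neg_eq_add, Finset.sum_erase_add _ _ hbe]
    have hsep : ∀ al ∈ roots L C.a, 0 < ⟪al, ∑ z ∈ K'.erase be, z⟫_ℝ →
        0 ≤ ⟪al, (∑ z ∈ K'.erase be, z) - -be⟫_ℝ := by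
      intro al hal hpos
      rw [hsum]
      refine H06_updom C hm hd hK hal ?_
      by_contra hc'
      have h1 : 0 < ⟪-al, H⟫_ℝ := by
        rw [inner_neg_left]
        rcases lt_or_gt_of_ne (hH.2 al hal) with h | h
        · linarith
        · exact absurd h hc'
      have h2 := H06_updom C hm hd hup (roots_neg C hal) h1
      rw [inner_neg_left] at h2
      linarith
    obtain ⟨V', k1, k2, k3, p, b, hp, -, H₂, v₁, hH₂, hv₁, -⟩ :=
      P03_step C t ht s hs hH hH₁ hv hx hsep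
    rw [hsum] at hv₁
    exact ⟨V', k1, k2, k3, p, v₁, hp, hw_change p C hH₂ hv₁ hH
      fun al hal hpos => H06_updom C hm hd hK hal hpos⟩

theorem exists_mult (J : CStr L) (C : CSub L) {H ga : g} (hH : Reg L C.a H)
    (hga : ga ∈ Simp L C.a H) :
    ∃ y, Semi L C.a y ∧ (∀ de ∈ Simp L C.a H, de ≠ ga → ⟪de, y⟫_ℝ = 0) ∧ 0 < ⟪ga, y⟫_ℝ ∧
      ∃ (V : Type) (_ : NormedAddCommGroup V) (_ : InnerProductSpace ℂ V)
        (_ : FiniteDimensional ℂ V) (t : CRep J V) (v : V), HW t C.a H y v := by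
  classical
  obtain ⟨y, hsy, hy1, hy0⟩ := simp_dual C hH hga
  have hd : ∀ al ∈ roots L C.a, 0 < ⟪al, H⟫_ℝ → 0 ≤ ⟪al, y⟫_ℝ := fun al hal hp =>
    H06_dom C hH hy1 hy0 hal hp
  have hfin := roots_finite C
  have hgaR : ga ∈ hfin.toFinset := hfin.mem_toFinset.2 hga.1
  obtain ⟨b₀, hb₀, hmax⟩ := hfin.toFinset.exists_max_image (fun x => ⟪x, y⟫_ℝ) ⟨ga, hgaR⟩
  obtain ⟨b₁, hb₁, hmax'⟩ := (hfin.toFinset.filter fun x => ⟪x, y⟫_ℝ = ⟪b₀, y⟫_ℝ).exists_max_image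
    (fun x => ⟪x, x⟫_ℝ) ⟨b₀, Finset.mem_filter.2 ⟨hb₀, rfl⟩⟩
  have hm : H06_max L C.a y ⟪b₀, y⟫_ℝ ⟪b₁, b₁⟫_ℝ := by
    refine ⟨?_, fun al hal => hmax al (hfin.mem_toFinset.2 hal), fun al hal h =>
      hmax' al (Finset.mem_filter.2 ⟨hfin.mem_toFinset.2 hal, h⟩)⟩
    have h1 := hmax ga hgaR
    simp only [hy1] at h1
    linarith
  obtain ⟨hb₁R, hb₁y⟩ := Finset.mem_filter.1 hb₁
  set K : Finset g := hfin.toFinset.filter fun x => ⟪x, y⟫_ℝ = ⟪b₀, y⟫_ℝ ∧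
    ⟪x, x⟫_ℝ = ⟪b₁, b₁⟫_ℝ with hKdef
  have hKmem : ∀ x, x ∈ K ↔ x ∈ H06_K L C.a y ⟪b₀, y⟫_ℝ ⟪b₁, b₁⟫_ℝ := by
    intro x
    rw [hKdef, Finset.mem_filter, hfin.mem_toFinset]
    exact Iff.rfl
  have hb₁K : b₁ ∈ K := Finset.mem_filter.2 ⟨hb₁R, hb₁y, rfl⟩
  have hup : H06_up L C.a y H ⟪b₀, y⟫_ℝ ⟪b₁, b₁⟫_ℝ K :=
    ⟨fun x hx => (hKmem x).1 hx, fun _ _ x' hx' _ => (hKmem x').2 hx'⟩
  have hcard : K.card = (K.card - 1) + 1 := by
    have := Finset.card_pos.2 ⟨b₁, hb₁K⟩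
    omega
  obtain ⟨V, i1, i2, i3, t, v, -, hv⟩ := H06_rep J C hH hm hd _ K hcard hup
  have hsum0 : ∀ z, (∀ al ∈ roots L C.a, ⟪al, z⟫_ℝ = 0) → ⟪∑ be ∈ K, be, z⟫_ℝ = 0 := by
    intro z hz
    rw [sum_inner]
    exact Finset.sum_eq_zero fun x hx => hz x ((hKmem x).1 hx).1
  refine ⟨∑ be ∈ K, be, ⟨C.a.sum_mem fun x hx => ((hKmem x).1 hx).1.1, fun z _ hz =>
    hsum0 z hz⟩, ?_, ?_, V, i1, i2, i3, t, v, hv⟩
  · intro de hde hne
    have hde0 := hy0 de hde hne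
    have hdn : de ≠ 0 := hde.1.2.1
    have hKr : ∀ x ∈ K, sr de x ∈ K := fun x hx =>
      (hKmem _).2 (H06_Krefl C hde.1 hde0 ((hKmem x).1 hx))
    have h1 : ∑ x ∈ K, ⟪de, x⟫_ℝ = ∑ x ∈ K, ⟪de, sr de x⟫_ℝ := by
      refine Finset.sum_nbij' (sr de) (sr de) hKr hKr (fun x _ => H06_sr_sr hdn)
        (fun x _ => H06_sr_sr hdn) fun x _ => ?_
      rw [H06_sr_sr hdn]
    have h2 : ∑ x ∈ K, ⟪de, sr de x⟫_ℝ = -∑ x ∈ K, ⟪de, x⟫_ℝ := by
      rw [← Finset.sum_neg_distrib]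
      exact Finset.sum_congr rfl fun x _ => H06_sr_self hdn
    rw [inner_sum]
    linarith
  · have h1 : 0 ≤ ⟪ga, ∑ be ∈ K, be⟫_ℝ := H06_updom C hm hd hup hga.1 hga.2.1
    rcases h1.eq_or_lt with h0 | h0
    · exfalso
      have hall : ∀ de ∈ Simp L C.a H, ⟪de, ∑ be ∈ K, be⟫_ℝ = 0 := by
        intro de hde
        by_cases hne : de = ga
        · rw [hne, ← h0]
        · have hde0 := hy0 de hde hne
          have hdn : de ≠ 0 := hde.1.2.1
          have hKr : ∀ x ∈ K, sr de x ∈ K := fun x hx =>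
            (hKmem _).2 (H06_Krefl C hde.1 hde0 ((hKmem x).1 hx))
          have h1 : ∑ x ∈ K, ⟪de, x⟫_ℝ = ∑ x ∈ K, ⟪de, sr de x⟫_ℝ := by
            refine Finset.sum_nbij' (sr de) (sr de) hKr hKr (fun x _ => H06_sr_sr hdn)
              (fun x _ => H06_sr_sr hdn) fun x _ => ?_
            rw [H06_sr_sr hdn]
          have h2 : ∑ x ∈ K, ⟪de, sr de x⟫_ℝ = -∑ x ∈ K, ⟪de, x⟫_ℝ := by
            rw [← Finset.sum_neg_distrib]
            exact Finset.sum_congr rfl fun x _ => H06_sr_self hdn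
          rw [inner_sum]
          linarith
      have hz := simp_zero C hH hall
      have h3 := hsy.2 _ (C.a.sum_mem fun x hx => ((hKmem x).1 hx).1.1) hz
      rw [real_inner_comm, sum_inner] at h3
      have h4 : ∑ x ∈ K, ⟪x, y⟫_ℝ = K.card * ⟪b₀, y⟫_ℝ := by
        rw [Finset.sum_congr rfl fun x hx => ((hKmem x).1 hx).2.1, Finset.sum_const,
          nsmul_eq_mul]
      rw [h4] at h3
      have h5 : (0 : ℝ) < K.card := by
        exact_mod_cast Finset.card_pos.2 ⟨b₁, hb₁K⟩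
      have h6 := hm.1
      exact absurd h3 (mul_pos h5 h6).ne'
    · exact h0

end Pool.Agent.Lib.MP_4322ef_CH
end
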